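import Pool.Agent.H510.GP.Rel
import Pool.Agent.H510.UZ.Glob3

/-!
Small and large gaps between the zeros, in every class of shapes: the interval `(0, T]`.
-/

set_option autoImplicit false

open Complex Filter Topology MeasureTheory
open Pool.Agent.Q97.UM (dp N2 mz SS SSB ZD)

namespace Pool.Agent.H510.GP

open Pool.Agent.H510.UZ

noncomputable section

/-- the number, with multiplicity, of the zeros with a small gap -/
def CS (η a b : ℝ) (P : ℝ → Prop) : ℝ := ∑ᶠ s ∈ {s ∈ zeros a b | Sm η s ∧ P s.im}, (analyticOrderNatAt riemannZeta s : ℝ)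

/-- the ordinates followed by a large gap -/
def LO (η a b : ℝ) : Set ℝ := {γ : ℝ | (∃ s ∈ zeros a b, s.im = γ) ∧ Lg η γ}

theorem LO_finite (η a b : ℝ) (ha : 0 ≤ a) : (LO η a b).Finite := by
  refine ((zeros_finite a b ha).image Complex.im).subset ?_
  rintro γ ⟨⟨s, hs, rfl⟩, -⟩
  exact ⟨s, hs, rfl⟩

open Classical in
theorem CS_eq {η a b : ℝ} (ha : 1 ≤ a) (P : ℝ → Prop) :
    CS η a b P = ∑ s ∈ (H370.Zf riemannZeta a b).filter (fun s => Sm η s ∧ P s.im), (mz s : ℝ) := by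
  unfold CS
  rw [← finsum_mem_coe_finset]
  have : (((H370.Zf riemannZeta a b).filter fun s => Sm η s ∧ P s.im : Finset ℂ) : Set ℂ) =
      {s ∈ zeros a b | Sm η s ∧ P s.im} := by
    ext s
    rw [Finset.mem_coe, Finset.mem_filter, H370.mem_Zf H370.good_zeta ha, ← zeros_eq]
    rfl
  rw [this]
  rfl

open Classical in
/-- few zeros on one horizontal line -/
theorem same_card {T δ k : ℝ} (hT : 16 ≤ T) (hδ : 0 < δ) {t : ℝ} (h : SS δ T t ≤ k) :
    (((H370.Zf riemannZeta T (2 * T)).filter fun s => s.im = t).card : ℝ) ≤ k := by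
  refine le_trans ?_ ((PC.SS_ge hT hδ.le t).trans h)
  rw [Finset.card_eq_sum_ones, Nat.cast_sum, Finset.sum_filter]
  refine Finset.sum_le_sum fun s hs => ?_
  have hm := mz_pos (by linarith : (1 : ℝ) ≤ T) hs
  split_ifs with h1
  · rw [h1]
    simpa using hm
  · positivity

open Classical in
/-- zeros and distinct ordinates -/
theorem ord_card {T δ k η : ℝ} (hT : 16 ≤ T) (hδ : 0 < δ) (P : ℝ → Prop) (hk : 0 ≤ k) :
    (((H370.Zf riemannZeta T (2 * T)).filter (fun s => (Lg η s.im ∧ SS δ T s.im ≤ k) ∧ P s.im)).card : ℝ) ≤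
      k * (({γ ∈ LO η T (2 * T) | P γ}.ncard : ℕ) : ℝ) := by
  set F := (H370.Zf riemannZeta T (2 * T)).filter (fun s => (Lg η s.im ∧ SS δ T s.im ≤ k) ∧ P s.im) with hF
  have h1 : F.card ≤ ⌊k⌋₊ * (F.image Complex.im).card := by
    apply Finset.card_le_mul_card_image
    intro t ht
    rw [Finset.mem_image] at ht
    obtain ⟨s, hs, rfl⟩ := ht
    rw [hF, Finset.mem_filter] at hs
    apply Nat.le_floor
    refine le_trans ?_ (same_card hT hδ hs.2.1.2)
    have : {x ∈ F | x.im = s.im} ⊆ (H370.Zf riemannZeta T (2 * T)).filter fun x => x.im = s.im := by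
      intro x hx
      rw [Finset.mem_filter] at hx ⊢
      rw [hF, Finset.mem_filter] at hx
      exact ⟨hx.1.1, hx.2⟩
    exact_mod_cast Finset.card_le_card this
  have h2 : (F.image Complex.im).card ≤ {γ ∈ LO η T (2 * T) | P γ}.ncard := by
    rw [← Set.ncard_coe_finset]
    refine Set.ncard_le_ncard ?_ ((LO_finite η T (2 * T) (by linarith)).subset fun _ h => h.1)
    intro t ht
    rw [Finset.mem_coe, Finset.mem_image] at ht
    obtain ⟨s, hs, rfl⟩ := ht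
    rw [hF, Finset.mem_filter, H370.mem_Zf H370.good_zeta (by linarith : (1 : ℝ) ≤ T), ← zeros_eq] at hs
    exact ⟨⟨⟨s, hs.1, rfl⟩, hs.2.1.1⟩, hs.2.2⟩
  calc (F.card : ℝ) ≤ ((⌊k⌋₊ * (F.image Complex.im).card : ℕ) : ℝ) := by exact_mod_cast h1
    _ = (⌊k⌋₊ : ℝ) * ((F.image Complex.im).card : ℝ) := by push_cast; ring
    _ ≤ k * (({γ ∈ LO η T (2 * T) | P γ}.ncard : ℕ) : ℝ) := by
        apply mul_le_mul (Nat.floor_le hk) (by exact_mod_cast h2) (Nat.cast_nonneg _) hk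

theorem CS_add (η a b c : ℝ) (ha : 0 ≤ a) (h1 : a ≤ b) (h2 : b ≤ c) (Q : ℝ → Prop) :
    CS η a c Q = CS η a b Q + CS η b c Q := by
  unfold CS
  rw [← finsum_mem_union]
  · apply congrArg (fun S : Set ℂ => ∑ᶠ s ∈ S, (analyticOrderNatAt riemannZeta s : ℝ))
    ext s
    simp only [zeros, Set.mem_union, Set.mem_ofPred_eq]
    constructor
    · rintro ⟨⟨h3, h4, h5, h6, h7⟩, h8⟩
      rcases le_or_gt s.im b with h9 | h9
      · exact Or.inl ⟨⟨h3, h4, h5, h6, h9⟩, h8⟩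
      · exact Or.inr ⟨⟨h3, h4, h5, h9, h7⟩, h8⟩
    · rintro (⟨⟨h3, h4, h5, h6, h7⟩, h8⟩ | ⟨⟨h3, h4, h5, h6, h7⟩, h8⟩)
      · exact ⟨⟨h3, h4, h5, h6, by linarith⟩, h8⟩
      · exact ⟨⟨h3, h4, h5, by linarith, h7⟩, h8⟩
  · rw [Set.disjoint_left]
    rintro s ⟨⟨_, _, _, _, h4⟩, _⟩ ⟨⟨_, _, _, h3, _⟩, _⟩
    linarith
  · exact (zeros_finite a b ha).subset fun _ h => h.1
  · exact (zeros_finite b c (ha.trans h1)).subset fun _ h => h.1

theorem CS_nonneg (η a b : ℝ) (Q : ℝ → Prop) : 0 ≤ CS η a b Q :=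
  finsum_nonneg fun _ => finsum_nonneg fun _ => Nat.cast_nonneg _

theorem super_CS (η : ℝ) (Q : ℝ → Prop) : Super fun _ a b => CS η a b Q := by
  constructor
  · intro r a b
    exact CS_nonneg η a b Q
  · intro r r' a b c hr ha h1 h2
    exact (CS_add η a b c ha h1 h2 Q).ge

theorem super_LO (η : ℝ) (Q : ℝ → Prop) : Super fun _ a b => (({γ ∈ LO η a b | Q γ}.ncard : ℕ) : ℝ) := by
  constructor
  · intro r a b
    positivity
  · intro r r' a b c hr ha h1 h2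
    have hf1 : {γ ∈ LO η a b | Q γ}.Finite := (LO_finite η a b ha).subset fun _ h => h.1
    have hf2 : {γ ∈ LO η b c | Q γ}.Finite := (LO_finite η b c (ha.trans h1)).subset fun _ h => h.1
    have : {γ ∈ LO η a b | Q γ}.ncard + {γ ∈ LO η b c | Q γ}.ncard ≤ {γ ∈ LO η a c | Q γ}.ncard := by
      rw [← Set.ncard_union_eq _ hf1 hf2]
      · refine Set.ncard_le_ncard ?_ ((LO_finite η a c ha).subset fun _ h => h.1)
        rintro γ (⟨⟨⟨s, ⟨h3, h4, h5, h6, h7⟩, h8⟩, h9⟩, h10⟩ | ⟨⟨⟨s, ⟨h3, h4, h5, h6, h7⟩, h8⟩, h9⟩, h10⟩)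
        · exact ⟨⟨⟨s, ⟨h3, h4, h5, h6, by linarith⟩, h8⟩, h9⟩, h10⟩
        · exact ⟨⟨⟨s, ⟨h3, h4, h5, by linarith, h7⟩, h8⟩, h9⟩, h10⟩
      · rw [Set.disjoint_left]
        rintro γ ⟨⟨⟨s, ⟨h3, h4, h5, h6, h7⟩, h8⟩, h9⟩, h10⟩ ⟨⟨⟨s', ⟨h3', h4', h5', h6', h7'⟩, h8'⟩, h9'⟩, h10'⟩
        linarith
    beta_reduce
    exact_mod_cast this

/-- **small and large gaps in every class** -/
theorem gaps : ∃ η c : ℝ, 0 < η ∧ η ≤ 1 / 2 ∧ 0 < c ∧
    ∀ K : Set ℂ, IsCompact K → (∀ z ∈ K, 1 / 2 < z.re ∧ z.re < 1) → ∀ κ : ℝ, 0 < κ → ∀ ε : ℝ, 0 < ε → ∀ᶠ T : ℝ in atTop,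
    ∀ a b : ℝ, (a = T ∧ b = 2 * T ∨ a = 0 ∧ b = T) → ∀ (A : Set (ℂ → ℂ)) (x : ℝ),
      c * (Real.log T * Ms a b (Near K A x)) - ε * T * Real.log T ≤ CS η a b (Near K A (x + κ)) ∧
      c * (Real.log T * Ms a b (Near K A x)) - ε * T * Real.log T ≤
        (({γ ∈ LO η a b | Near K A (x + κ) γ}.ncard : ℕ) : ℝ) := by
  classical
  obtain ⟨η, δ, k, c₀, hη, hη1, hδ, hk, hc₀, hdy⟩ := dyadic
  have hpi := Real.pi_pos
  obtain ⟨c, hc⟩ : ∃ c : ℝ, c = min (c₀ / k) (1 / (2 * Real.pi)) := ⟨_, rfl⟩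
  have hc0 : 0 < c := by rw [hc]; positivity
  have hck : c ≤ c₀ / k := by rw [hc]; exact min_le_left _ _
  have hcc : c ≤ c₀ := hck.trans (div_le_self hc₀.le hk)
  have hcp : 2 * Real.pi * c ≤ 1 := by
    have : c ≤ 1 / (2 * Real.pi) := by rw [hc]; exact min_le_right _ _
    calc 2 * Real.pi * c ≤ 2 * Real.pi * (1 / (2 * Real.pi)) := by gcongr
      _ = 1 := by field_simp
  refine ⟨η, c, hη, hη1, hc0, ?_⟩
  intro K hK hKs κ hκ ε hε
  obtain ⟨T₁, hT₁⟩ := eventually_atTop.1 (hdy K hK hKs κ hκ (ε / 4) (by positivity))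
  have key : ∀ T ≥ max T₁ 16, ∀ (A : Set (ℂ → ℂ)) (x : ℝ),
      c * (Real.log T * Ms T (2 * T) (Near K A x)) - ε / 4 * T * Real.log T ≤ CS η T (2 * T) (Near K A (x + κ)) ∧
      c * (Real.log T * Ms T (2 * T) (Near K A x)) - ε / 4 * T * Real.log T ≤
        (({γ ∈ LO η T (2 * T) | Near K A (x + κ) γ}.ncard : ℕ) : ℝ) := by
    intro T hT A x
    have h16 : 16 ≤ T := (le_max_right _ _).trans hT
    have hL : 0 < Real.log T := Real.log_pos (by linarith)
    obtain ⟨h1, h2⟩ := hT₁ T ((le_max_left _ _).trans hT) A x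
    rw [V_eq] at h1 h2
    rw [← CS_eq (by linarith : (1 : ℝ) ≤ T)] at h1
    have h3 := ord_card (η := η) h16 hδ (Near K A (x + κ)) (by linarith : 0 ≤ k)
    have hM := Ms_nonneg T (2 * T) (Near K A x)
    have hX : 0 ≤ Real.log T * Ms T (2 * T) (Near K A x) := by positivity
    set X := Real.log T * Ms T (2 * T) (Near K A x) with hXd
    set Y := ε / 4 * T * Real.log T with hY
    have hY0 : 0 ≤ Y := by positivity
    constructor
    · have : c * X ≤ c₀ * X := by gcongr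
      linarith
    · have h4 := h2.trans h3
      have h5 : c * X ≤ c₀ / k * X := by gcongr
      have h6 : c₀ / k * X - Y ≤ (({γ ∈ LO η T (2 * T) | Near K A (x + κ) γ}.ncard : ℕ) : ℝ) := by
        have h7 : c₀ * X - Y ≤ k * (({γ ∈ LO η T (2 * T) | Near K A (x + κ) γ}.ncard : ℕ) : ℝ) := h4
        have h8 : (c₀ * X - Y) / k ≤ (({γ ∈ LO η T (2 * T) | Near K A (x + κ) γ}.ncard : ℕ) : ℝ) := by
          rw [div_le_iff₀ (by linarith)]
          linarith
        have h9 : Y / k ≤ Y := div_le_self hY0 hk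
        have h10 : (c₀ * X - Y) / k = c₀ / k * X - Y / k := by ring
        linarith
      linarith
  obtain ⟨U₀, hU₀⟩ := glob_gen ε hε (max T₁ 16) (le_max_right _ _)
  have conv : ∀ T a b : ℝ, ∀ P : ℝ → Prop, 2 * Real.pi * c * (Real.log T / (2 * Real.pi) * Ms a b P) =
      c * (Real.log T * Ms a b P) := by
    intro T a b P
    field_simp
  filter_upwards [eventually_ge_atTop (max T₁ 16), eventually_ge_atTop U₀, eventually_ge_atTop 16] with T hT hTU h16 a b hab A x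
  have hL : 0 < Real.log T := Real.log_pos (by linarith)
  rcases hab with ⟨rfl, rfl⟩ | ⟨rfl, rfl⟩
  · obtain ⟨h1, h2⟩ := key a hT A x
    have h5 : ε / 4 * a * Real.log a ≤ ε * a * Real.log a := by
      have : 0 ≤ ε * a * Real.log a := by positivity
      linarith
    exact ⟨by linarith, by linarith⟩
  · constructor
    · have := hU₀ b hTU _ (super_CS η (Near K A (x + κ))) (2 * Real.pi * c) 0 (by positivity) hcp le_rfl
        (Near K A x) (by
          intro T hT'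
          rw [conv]
          exact (key T hT' A x).1)
      rw [conv] at this
      exact this
    · have := hU₀ b hTU _ (super_LO η (Near K A (x + κ))) (2 * Real.pi * c) 0 (by positivity) hcp le_rfl
        (Near K A x) (by
          intro T hT'
          rw [conv]
          exact (key T hT' A x).2)
      rw [conv] at this
      exact this

/-- the zeros with a small gap are zeros -/
theorem CS_le_NM (η U : ℝ) (P : ℝ → Prop) : CS η 0 U P ≤ NM 0 U P := by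
  unfold CS NM
  have hf : {s ∈ zeros 0 U | P s.im}.Finite := (zeros_finite 0 U le_rfl).subset fun _ h => h.1
  have hf2 : {s ∈ zeros 0 U | Sm η s ∧ P s.im}.Finite := (zeros_finite 0 U le_rfl).subset fun _ h => h.1
  rw [finsum_mem_eq_finite_toFinset_sum _ hf, finsum_mem_eq_finite_toFinset_sum _ hf2]
  apply Finset.sum_le_sum_of_subset_of_nonneg
  · intro s hs
    rw [Set.Finite.mem_toFinset] at hs ⊢
    exact ⟨hs.1, hs.2.2⟩
  · intro _ _ _
    exact Nat.cast_nonneg _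

/-- the ordinates with a large gap are ordinates of zeros -/
theorem LO_le_NM (η U : ℝ) (P : ℝ → Prop) : (({γ ∈ LO η 0 U | P γ}.ncard : ℕ) : ℝ) ≤ NM 0 U P := by
  have hf : {s ∈ zeros 0 U | P s.im}.Finite := (zeros_finite 0 U le_rfl).subset fun _ h => h.1
  unfold NM
  rw [finsum_mem_eq_finite_toFinset_sum _ hf]
  have h1 : (({γ ∈ LO η 0 U | P γ}.ncard : ℕ) : ℝ) ≤ (hf.toFinset.card : ℝ) := by
    rw [← Set.ncard_eq_toFinset_card _ hf]
    have hsub : {γ ∈ LO η 0 U | P γ} ⊆ Complex.im '' {s ∈ zeros 0 U | P s.im} := by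
      rintro γ ⟨⟨⟨s, hs, rfl⟩, -⟩, h6⟩
      exact ⟨s, ⟨hs, h6⟩, rfl⟩
    have h2 := (Set.ncard_le_ncard hsub (hf.image _)).trans (Set.ncard_image_le hf)
    exact_mod_cast h2
  refine h1.trans ?_
  rw [Finset.card_eq_sum_ones, Nat.cast_sum]
  apply Finset.sum_le_sum
  intro s hs
  rw [Set.Finite.mem_toFinset] at hs
  have : 1 ≤ H370.mult riemannZeta s := H370.Loc.mult_pos' H370.good_zeta hs.1.2.2.2.1 hs.1.1
  have h2 : analyticOrderNatAt riemannZeta s = H370.mult riemannZeta s := rfl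
  rw [h2]
  exact_mod_cast this

/-- positive lower density of heights gives a positive proportion of both kinds of gaps -/
theorem gaps_density : ∃ η : ℝ, 0 < η ∧ η ≤ 1 / 2 ∧ (∃ c : ℝ, 0 < c ∧
    ∀ K : Set ℂ, IsCompact K → (∀ z ∈ K, 1 / 2 < z.re ∧ z.re < 1) → ∀ κ : ℝ, 0 < κ → ∀ ε : ℝ, 0 < ε → ∀ᶠ T : ℝ in atTop,
    ∀ a b : ℝ, (a = T ∧ b = 2 * T ∨ a = 0 ∧ b = T) → ∀ (A : Set (ℂ → ℂ)) (x : ℝ),
      c * (Real.log T * Ms a b (Near K A x)) - ε * T * Real.log T ≤ CS η a b (Near K A (x + κ)) ∧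
      c * (Real.log T * Ms a b (Near K A x)) - ε * T * Real.log T ≤
        (({γ ∈ LO η a b | Near K A (x + κ) γ}.ncard : ℕ) : ℝ)) ∧
    (∀ K : Set ℂ, IsCompact K → (∀ z ∈ K, 1 / 2 < z.re ∧ z.re < 1) → ∀ (A : Set (ℂ → ℂ)) (x : ℝ), 0 < x →
      (∃ c : ℝ, 0 < c ∧ ∀ᶠ U : ℝ in atTop, c * U ≤ Ms 0 U (Near K A (x / 2))) → ∃ p : ℝ, 0 < p ∧ ∀ᶠ U : ℝ in atTop,
        p * (U * Real.log U) ≤ CS η 0 U (Near K A x) ∧
        p * (U * Real.log U) ≤ (({γ ∈ LO η 0 U | Near K A x γ}.ncard : ℕ) : ℝ)) := by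
  obtain ⟨η, c, hη, hη1, hc, h⟩ := gaps
  refine ⟨η, hη, hη1, ⟨c, hc, h⟩, ?_⟩
  rintro K hK hKs A x hx ⟨c₁, hc₁, h1⟩
  refine ⟨c * c₁ / 2, by positivity, ?_⟩
  filter_upwards [h1, h K hK hKs (x / 2) (by positivity) (c * c₁ / 2) (by positivity), eventually_ge_atTop 16] with U h1 h2 hU
  obtain ⟨h3, h4⟩ := h2 0 U (Or.inr ⟨rfl, rfl⟩) A (x / 2)
  rw [add_halves] at h3 h4
  have hL : 0 < Real.log U := Real.log_pos (by linarith)
  have e3 : c * (Real.log U * (c₁ * U)) ≤ c * (Real.log U * Ms 0 U (Near K A (x / 2))) := by gcongr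
  constructor
  · refine le_trans ?_ h3
    nlinarith
  · refine le_trans ?_ h4
    nlinarith

end

end Pool.Agent.H510.GP
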