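import Pool.Agent.H510.PC.Cls
import Pool.Graph.R_pool_sql_team_seeded_3997aac3.Q97.UM.Base9

/-!
Small and large gaps between the zeros, in every class of shapes: dyadic intervals.
-/

set_option autoImplicit false

open Complex Filter Topology MeasureTheory
open Pool.Agent.Q97.UM (dp N2 mz SS SSB ZD)

namespace Pool.Agent.H510.GP

open Pool.Agent.H510.UZ
open Pool.Agent.H510.PC (Fun zv low_transfer all_zeros PhiA PhiA_fun PhiA_one PhiA_zero val_cont int_ge V_mono')

/-- multiple, or with another zero at a distance of at most `1 - η` local average spacings -/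
def Sm (η : ℝ) (s : ℂ) : Prop := 2 ≤ analyticOrderNatAt riemannZeta s ∨ ∃ s' : ℂ, riemannZeta s' = 0 ∧ 0 < s'.re ∧ s'.re < 1 ∧
  s' ≠ s ∧ |s'.im - s.im| * (Real.log s.im / (2 * Real.pi)) ≤ 1 - η

/-- followed by a gap of at least `1 + η` local average spacings -/
def Lg (η γ : ℝ) : Prop := ∀ s' : ℂ, riemannZeta s' = 0 → 0 < s'.re → s'.re < 1 → γ < s'.im →
  1 + η ≤ (s'.im - γ) * (Real.log γ / (2 * Real.pi))

/-- second moment of `SS` against every Dirichlet polynomial -/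
theorem SS_rel : ∃ δ θ C : ℝ, 0 < δ ∧ 0 < θ ∧ 0 ≤ C ∧ ∀ᶠ T : ℝ in atTop, ∀ N : ℕ, (N : ℝ) ≤ T ^ θ → ∀ b : ℕ → ℂ,
    ∑ s ∈ H370.Zf riemannZeta T (2 * T), (mz s : ℝ) * (SS δ T s.im ^ 2 * ‖dp N b s.im‖ ^ 2) ≤ C * Real.log T * (T * N2 N b) := by
  obtain ⟨θ, c, C, hθ, hθ1, hc, hC, hT⟩ := Pool.Agent.Q97.UM.b_TAIL
  obtain ⟨C', hC', h1⟩ := Pool.Agent.Q97.UM.b_STM θ c C hθ hθ1 hc hC hT 3 (c / 64) (by positivity) (by
    push_cast; linarith)
  have hS : SSB (θ / 2) (c / 64) (2 + 1) C' := h1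
  obtain ⟨C₂, hC₂, h2⟩ := Pool.Agent.Q97.UM.b_DSC (θ / 2) (c / 64) 2 C' (by positivity) (by linarith) (by positivity) hC' hS
  exact ⟨c / 64, θ / 2, C₂, by positivity, by positivity, hC₂, h2⟩

/-- zeros at a small distance, in the two normalisations -/
theorem sm_of {η T : ℝ} (hT : 16 ≤ T) (hη : 0 < η) (hη1 : η ≤ 1 / 2) (hlog : 4 / η ≤ Real.log T) {s : ℂ}
    (hs : s ∈ H370.Zf riemannZeta T (2 * T))
    (h : 2 ≤ mz s ∨ ∃ s' ∈ ZD T, s' ≠ s ∧ |s'.im - s.im| ≤ (1 - η) * (2 * Real.pi / Real.log T)) : Sm (η / 2) s := by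
  rcases h with h | ⟨s', h1, h2, h3⟩
  · exact Or.inl h
  · right
    unfold ZD at h1
    rw [H370.mem_Zf H370.good_zeta (by linarith : (1 : ℝ) ≤ T / 16)] at h1
    rw [H370.mem_Zf H370.good_zeta (by linarith : (1 : ℝ) ≤ T)] at hs
    refine ⟨s', h1.2.2.2.2, h1.1, h1.2.1, h2, ?_⟩
    have hL : 0 < Real.log T := Real.log_pos (by linarith)
    have hpi := Real.pi_pos
    have hls : Real.log s.im ≤ Real.log T + 1 := by
      have e1 : Real.log s.im ≤ Real.log (2 * T) := Real.log_le_log (by linarith [hs.2.2.1]) hs.2.2.2.1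
      rw [Real.log_mul (by norm_num) (by linarith)] at e1
      have := Real.log_two_lt_d9
      linarith
    have hls0 : 0 ≤ Real.log s.im := Real.log_nonneg (by linarith [hs.2.2.1])
    calc |s'.im - s.im| * (Real.log s.im / (2 * Real.pi)) ≤
        ((1 - η) * (2 * Real.pi / Real.log T)) * ((Real.log T + 1) / (2 * Real.pi)) := by
          apply mul_le_mul h3 _ (by positivity) (mul_nonneg (by linarith) (by positivity))
          gcongr
      _ = (1 - η) * (1 + 1 / Real.log T) := by field_simp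
      _ ≤ (1 - η) * (1 + η / 4) := by
          have : 1 / Real.log T ≤ η / 4 := by
            rw [div_le_iff₀ hL]
            rw [div_le_iff₀ hη] at hlog
            linarith
          apply mul_le_mul_of_nonneg_left _ (by linarith)
          linarith
      _ ≤ 1 - η / 2 := by nlinarith

theorem lg_of {η T : ℝ} (hT : 16 ≤ T) (hη : 0 < η) (hη1 : η ≤ 1 / 2) {s : ℂ} (hs : s ∈ H370.Zf riemannZeta T (2 * T))
    (h : ∀ s' ∈ ZD T, ¬ (s.im < s'.im ∧ s'.im < s.im + (1 + η) * (2 * Real.pi / Real.log T))) : Lg η s.im := by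
  intro s' h0 h1 h2 h3
  rw [H370.mem_Zf H370.good_zeta (by linarith : (1 : ℝ) ≤ T)] at hs
  have hL : 0 < Real.log T := Real.log_pos (by linarith)
  have hL2 : 2 ≤ Real.log T := by
    rw [Real.le_log_iff_exp_le (by linarith)]
    have e1 := Real.exp_one_lt_d9
    have e2 : Real.exp 2 = Real.exp 1 * Real.exp 1 := by rw [← Real.exp_add]; norm_num
    rw [e2]
    nlinarith [Real.exp_pos 1]
  have hpi := Real.pi_pos
  have hpi4 := Real.pi_lt_four
  have hls : Real.log T ≤ Real.log s.im := Real.log_le_log (by linarith) hs.2.2.1.le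
  have hsp : (1 + η) * (2 * Real.pi / Real.log T) ≤ 8 := by
    have h1 : 2 * Real.pi / Real.log T ≤ 4 := by
      rw [div_le_iff₀ (by linarith)]
      nlinarith
    have h0 : 0 ≤ 2 * Real.pi / Real.log T := by positivity
    nlinarith
  have key : (1 + η) * (2 * Real.pi / Real.log T) ≤ s'.im - s.im := by
    by_contra hcon
    rw [not_le] at hcon
    refine h s' ?_ ⟨h3, by linarith⟩
    unfold ZD
    rw [H370.mem_Zf H370.good_zeta (by linarith : (1 : ℝ) ≤ T / 16)]
    exact ⟨h1, h2, by linarith [hs.2.2.1], by linarith [hs.2.2.2.1], h0⟩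
  calc 1 + η = ((1 + η) * (2 * Real.pi / Real.log T)) * (Real.log T / (2 * Real.pi)) := by field_simp
    _ ≤ (s'.im - s.im) * (Real.log s.im / (2 * Real.pi)) := by
        apply mul_le_mul key _ (by positivity) (by linarith)
        gcongr

open Classical in
/-- the weight of the small gaps -/
noncomputable def Ws (η : ℝ) (_ : ℝ) (s : ℂ) : ℝ := if Sm η s then 1 else 0

open Classical in
/-- the weight of the large gaps -/
noncomputable def Wl (η δ k : ℝ) (T : ℝ) (s : ℂ) : ℝ := if Lg η s.im ∧ SS δ T s.im ≤ k then 1 / (mz s : ℝ) else 0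

theorem mz_pos {T : ℝ} (hT : 1 ≤ T) {s : ℂ} (hs : s ∈ H370.Zf riemannZeta T (2 * T)) : (1 : ℝ) ≤ mz s := by
  rw [H370.mem_Zf H370.good_zeta hT] at hs
  have : 1 ≤ H370.mult riemannZeta s := H370.Loc.mult_pos' H370.good_zeta (by linarith [hs.2.2.1]) hs.2.2.2.2
  exact_mod_cast this

/-- relative lower bounds -/
theorem rel_low : ∃ η δ k c : ℝ, 0 < η ∧ η ≤ 1 / 2 ∧ 0 < δ ∧ 1 ≤ k ∧ 0 < c ∧ ∃ θ : ℝ, 0 < θ ∧ ∀ᶠ T : ℝ in atTop,
    ∀ N : ℕ, (N : ℝ) ≤ T ^ θ → ∀ b : ℕ → ℂ,
    c * Real.log T * (T * N2 N b) ≤ ∑ s ∈ H370.Zf riemannZeta T (2 * T), (mz s : ℝ) * (Ws η T s * ‖dp N b s.im‖ ^ 2) ∧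
    c * Real.log T * (T * N2 N b) ≤ ∑ s ∈ H370.Zf riemannZeta T (2 * T), (mz s : ℝ) * (Wl η δ k T s * ‖dp N b s.im‖ ^ 2) := by
  classical
  obtain ⟨θ₁, c₁, η, hθ₁, hc₁, hη, hη1, h1⟩ := Pool.Agent.Q97.UM.b_UG2
  obtain ⟨δ, θ₂, C, hδ, hθ₂, hC, h2⟩ := SS_rel
  obtain ⟨k, hk⟩ : ∃ k : ℝ, k = 1 + 2 * C / c₁ := ⟨_, rfl⟩
  have hk1 : 1 ≤ k := by rw [hk]; have : 0 ≤ 2 * C / c₁ := by positivity
                         linarith
  have hkC : C / k ^ 2 ≤ c₁ / 2 := by
    rw [div_le_iff₀ (by positivity)]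
    have e1 : 2 * C / c₁ ≤ k ^ 2 := by
      have : 2 * C / c₁ ≤ k := by rw [hk]; linarith
      nlinarith
    have e2 : c₁ / 2 * (2 * C / c₁) = C := by field_simp
    calc C = c₁ / 2 * (2 * C / c₁) := e2.symm
      _ ≤ c₁ / 2 * k ^ 2 := by gcongr
  refine ⟨η / 2, δ, k, c₁ / 2, by positivity, by linarith, hδ, hk1, by positivity, min θ₁ θ₂, by positivity, ?_⟩
  filter_upwards [h1, h2, eventually_ge_atTop 16, Real.tendsto_log_atTop.eventually_ge_atTop (4 / η)] with T h1 h2 hT hlog N hN b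
  obtain ⟨a1, a2⟩ := h1 N (hN.trans (Real.rpow_le_rpow_of_exponent_le (by linarith) (min_le_left _ _))) b
  have a3 := h2 N (hN.trans (Real.rpow_le_rpow_of_exponent_le (by linarith) (min_le_right _ _))) b
  have hL : 0 < Real.log T := Real.log_pos (by linarith)
  have hX : 0 ≤ Real.log T * (T * N2 N b) := by
    have : 0 ≤ N2 N b := by unfold N2; positivity
    positivity
  constructor
  · have e1 : c₁ / 2 * Real.log T * (T * N2 N b) ≤ c₁ * Real.log T * (T * N2 N b) := by nlinarith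
    refine (e1.trans a1).trans ?_
    rw [Finset.sum_filter]
    refine Finset.sum_le_sum fun s hs => ?_
    have hm : (0 : ℝ) ≤ mz s := Nat.cast_nonneg _
    unfold Ws
    by_cases h : (2 ≤ mz s ∨ ∃ s' ∈ ZD T, s' ≠ s ∧ |s'.im - s.im| ≤ (1 - η) * (2 * Real.pi / Real.log T))
    · rw [if_pos h, if_pos (sm_of hT hη hη1 hlog hs h), one_mul]
    · rw [if_neg h]
      split_ifs <;> positivity
  · have e2 : ∑ s ∈ (H370.Zf riemannZeta T (2 * T)).filter (fun s =>
        ∀ s' ∈ ZD T, ¬ (s.im < s'.im ∧ s'.im < s.im + (1 + η) * (2 * Real.pi / Real.log T))), ‖dp N b s.im‖ ^ 2 ≤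
        ∑ s ∈ H370.Zf riemannZeta T (2 * T), ((mz s : ℝ) * (Wl (η / 2) δ k T s * ‖dp N b s.im‖ ^ 2) +
          1 / k ^ 2 * ((mz s : ℝ) * (SS δ T s.im ^ 2 * ‖dp N b s.im‖ ^ 2))) := by
      rw [Finset.sum_filter]
      refine Finset.sum_le_sum fun s hs => ?_
      have hm := mz_pos (by linarith : (1 : ℝ) ≤ T) hs
      have hm0 : (0 : ℝ) < mz s := by linarith
      have hS : 0 ≤ SS δ T s.im := by unfold SS; positivity
      unfold Wl
      by_cases h : ∀ s' ∈ ZD T, ¬ (s.im < s'.im ∧ s'.im < s.im + (1 + η) * (2 * Real.pi / Real.log T))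
      · rw [if_pos h]
        have hlg : Lg (η / 2) s.im := by
          intro s' k0 k1 k2 k3
          have := lg_of hT hη hη1 hs h s' k0 k1 k2 k3
          linarith
        by_cases hSk : SS δ T s.im ≤ k
        · rw [if_pos ⟨hlg, hSk⟩]
          have e3 : (mz s : ℝ) * (1 / (mz s : ℝ) * ‖dp N b s.im‖ ^ 2) = ‖dp N b s.im‖ ^ 2 := by field_simp
          rw [e3]
          have : 0 ≤ 1 / k ^ 2 * ((mz s : ℝ) * (SS δ T s.im ^ 2 * ‖dp N b s.im‖ ^ 2)) := by positivity
          linarith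
        · rw [if_neg (fun hh => hSk hh.2)]
          rw [not_le] at hSk
          have e4 : k ^ 2 ≤ SS δ T s.im ^ 2 := pow_le_pow_left₀ (by linarith) hSk.le 2
          have e5 : ‖dp N b s.im‖ ^ 2 ≤ 1 / k ^ 2 * ((mz s : ℝ) * (SS δ T s.im ^ 2 * ‖dp N b s.im‖ ^ 2)) := by
            calc ‖dp N b s.im‖ ^ 2 = 1 / k ^ 2 * (1 * (k ^ 2 * ‖dp N b s.im‖ ^ 2)) := by field_simp
              _ ≤ _ := by gcongr
          linarith
      · rw [if_neg h]
        have e6 : 0 ≤ 1 / k ^ 2 * ((mz s : ℝ) * (SS δ T s.im ^ 2 * ‖dp N b s.im‖ ^ 2)) := by positivity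
        split_ifs
        · have : 0 ≤ (mz s : ℝ) * (1 / (mz s : ℝ) * ‖dp N b s.im‖ ^ 2) := by positivity
          linarith
        · linarith
    rw [Finset.sum_add_distrib, ← Finset.mul_sum] at e2
    have e7 : 1 / k ^ 2 * ∑ s ∈ H370.Zf riemannZeta T (2 * T), ((mz s : ℝ) * (SS δ T s.im ^ 2 * ‖dp N b s.im‖ ^ 2)) ≤
        c₁ / 2 * (Real.log T * (T * N2 N b)) := by
      calc _ ≤ 1 / k ^ 2 * (C * Real.log T * (T * N2 N b)) := by gcongr
        _ = C / k ^ 2 * (Real.log T * (T * N2 N b)) := by ring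
        _ ≤ _ := by gcongr
    linarith

open Classical in
/-- **dyadic intervals**: the weights in the classes -/
theorem dyadic : ∃ η δ k c : ℝ, 0 < η ∧ η ≤ 1 / 2 ∧ 0 < δ ∧ 1 ≤ k ∧ 0 < c ∧
    ∀ K : Set ℂ, IsCompact K → (∀ z ∈ K, 1 / 2 < z.re ∧ z.re < 1) → ∀ κ : ℝ, 0 < κ → ∀ ε : ℝ, 0 < ε → ∀ᶠ T : ℝ in atTop,
    ∀ (A : Set (ℂ → ℂ)) (x : ℝ),
      c * (Real.log T * V T (Near K A x)) - ε * T * Real.log T ≤
        ∑ s ∈ (H370.Zf riemannZeta T (2 * T)).filter (fun s => Sm η s ∧ Near K A (x + κ) s.im), (mz s : ℝ) ∧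
      c * (Real.log T * V T (Near K A x)) - ε * T * Real.log T ≤
        (((H370.Zf riemannZeta T (2 * T)).filter (fun s => (Lg η s.im ∧ SS δ T s.im ≤ k) ∧ Near K A (x + κ) s.im)).card : ℝ) := by
  obtain ⟨η, δ, k, c, hη, hη1, hδ, hk, hc, θ, hθ, hrel⟩ := rel_low
  have hpi := Real.pi_pos
  refine ⟨η, δ, k, c, hη, hη1, hδ, hk, hc, ?_⟩
  intro K hK hKs κ hκ ε hε
  have t1 := low_transfer (2 * Real.pi * c) (Ws η) (by
    intro e he
    refine ⟨θ, hθ, ?_⟩
    filter_upwards [hrel, eventually_ge_atTop 1] with T h hT N hN b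
    have hL : 0 ≤ Real.log T := Real.log_nonneg hT
    have h1 := (h N hN b).1
    have h2 : 0 ≤ e * Real.log T * (T * N2 N b) := by
      have : 0 ≤ N2 N b := by unfold N2; positivity
      positivity
    have h3 : 2 * Real.pi * c * (Real.log T / (2 * Real.pi)) * (T * N2 N b) = c * Real.log T * (T * N2 N b) := by field_simp
    rw [h3]; linarith) (by
    refine ⟨1, ?_⟩
    filter_upwards [all_zeros] with T h
    rw [one_mul]
    refine le_trans (Finset.sum_le_sum fun s _ => ?_) h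
    unfold Ws
    split_ifs <;> simp) K hK hKs κ⁻¹ (by positivity) ε hε
  have t2 := low_transfer (2 * Real.pi * c) (Wl η δ k) (by
    intro e he
    refine ⟨θ, hθ, ?_⟩
    filter_upwards [hrel, eventually_ge_atTop 1] with T h hT N hN b
    have hL : 0 ≤ Real.log T := Real.log_nonneg hT
    have h1 := (h N hN b).2
    have h2 : 0 ≤ e * Real.log T * (T * N2 N b) := by
      have : 0 ≤ N2 N b := by unfold N2; positivity
      positivity
    have h3 : 2 * Real.pi * c * (Real.log T / (2 * Real.pi)) * (T * N2 N b) = c * Real.log T * (T * N2 N b) := by field_simp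
    rw [h3]; linarith) (by
    refine ⟨1, ?_⟩
    filter_upwards [all_zeros, eventually_ge_atTop 1] with T h hT
    rw [one_mul]
    refine le_trans (Finset.sum_le_sum fun s hs => ?_) h
    have hm := mz_pos hT hs
    unfold Wl
    split_ifs
    · have h1 : 1 / (mz s : ℝ) ≤ 1 := by rw [div_le_one (by linarith)]; exact hm
      have h2 : (1 / (mz s : ℝ)) ^ 2 ≤ 1 := pow_le_one₀ (by positivity) h1
      calc (mz s : ℝ) * (1 / (mz s : ℝ)) ^ 2 ≤ (mz s : ℝ) * 1 := by gcongr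
        _ = _ := mul_one _
    · simp) K hK hKs κ⁻¹ (by positivity) ε hε
  filter_upwards [t1, t2, eventually_ge_atTop 16] with T t1 t2 hT A x
  have hT0 : 0 < T := by linarith
  have hL : 0 < Real.log T := Real.log_pos (by linarith)
  have hA := PhiA_fun K hκ A x
  have hcA := val_cont hK (fun z hz => (hKs z hz).2) (by positivity) hA
  have b1 := t1 _ hA
  have b2 := t2 _ hA
  have hV : V T (Near K A x) ≤ ∫ t in T..(2 * T), PhiA K hκ A x (zv t) := by
    refine (V_mono' T _ _ ?_).trans (int_ge _ hcA (fun t => hA.nonneg _) T hT0.le)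
    intro t h3
    rw [PhiA_one hκ h3]
  have e1 : c * (Real.log T * V T (Near K A x)) ≤
      2 * Real.pi * c * (Real.log T / (2 * Real.pi)) * ∫ t in T..(2 * T), PhiA K hκ A x (zv t) := by
    have e2 : 2 * Real.pi * c * (Real.log T / (2 * Real.pi)) * ∫ t in T..(2 * T), PhiA K hκ A x (zv t) =
        c * (Real.log T * ∫ t in T..(2 * T), PhiA K hκ A x (zv t)) := by field_simp
    rw [e2]
    gcongr
  constructor
  · have e3 : ∑ s ∈ H370.Zf riemannZeta T (2 * T), (mz s : ℝ) * (Ws η T s * PhiA K hκ A x (zv s.im)) ≤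
        ∑ s ∈ (H370.Zf riemannZeta T (2 * T)).filter (fun s => Sm η s ∧ Near K A (x + κ) s.im), (mz s : ℝ) := by
      rw [Finset.sum_filter]
      refine Finset.sum_le_sum fun s _ => ?_
      have hm : (0 : ℝ) ≤ mz s := Nat.cast_nonneg _
      unfold Ws
      by_cases h1 : Sm η s
      · rw [if_pos h1]
        by_cases h2 : Near K A (x + κ) s.im
        · rw [if_pos ⟨h1, h2⟩]
          have := hA.le_one (zv s.im)
          nlinarith
        · rw [PhiA_zero hκ h2, if_neg (fun h => h2 h.2)]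
          simp
      · rw [if_neg h1, if_neg (fun h => h1 h.1)]
        simp
    linarith
  · have e3 : ∑ s ∈ H370.Zf riemannZeta T (2 * T), (mz s : ℝ) * (Wl η δ k T s * PhiA K hκ A x (zv s.im)) ≤
        (((H370.Zf riemannZeta T (2 * T)).filter (fun s => (Lg η s.im ∧ SS δ T s.im ≤ k) ∧ Near K A (x + κ) s.im)).card : ℝ) := by
      rw [Finset.card_eq_sum_ones, Nat.cast_sum, Finset.sum_filter]
      refine Finset.sum_le_sum fun s hs => ?_
      have hm := mz_pos (by linarith : (1 : ℝ) ≤ T) hs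
      have hm0 : (0 : ℝ) < mz s := by linarith
      unfold Wl
      by_cases h1 : Lg η s.im ∧ SS δ T s.im ≤ k
      · rw [if_pos h1]
        by_cases h2 : Near K A (x + κ) s.im
        · rw [if_pos ⟨h1, h2⟩]
          have h3 := hA.le_one (zv s.im)
          have h4 : (mz s : ℝ) * (1 / (mz s : ℝ) * PhiA K hκ A x (zv s.im)) = PhiA K hκ A x (zv s.im) := by field_simp
          rw [h4]
          simpa using h3
        · rw [PhiA_zero hκ h2, if_neg (fun h => h2 h.2)]
          simp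
      · rw [if_neg h1, if_neg (fun h => h1 h.1)]
        simp
    linarith

end Pool.Agent.H510.GP
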